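import Pool.Agent.Lib.H59M.M2.M118

/-!
# Schinzel's asymptotic formula for almost all members of linear families of systems of polynomials, every large `N`

`G` and `P_1, …, P_g` are fixed polynomials of any degrees `D_i ≥ 1`, `F_i = P_i + b_i + ψ_i(t)`, the `ψ_i` are fixed integral
linear forms in `t = (t_1, …, t_d)`, the `b_i` are arbitrary with `|b_i| ≤ A X^(D_i)`, and `t` varies in the box `|t_j| ≤ A X^(e_j)`.
Every parameter `t_j` occurs only in polynomials of degree `e_j`; the `ψ_i` are not `0`, and for two polynomials of the same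
degree the vectors (leading coefficient, form) are not proportional. One parameter is allowed.

(1) If `G` is linear: for EVERY large `N`, all `b` and `1 ≤ z ≤ X^δ`, for all `t` in the box with `b_i + ψ_i(t) ≥ 0` but a
proportion `(log X)^(-A) + K z^(-c)`, `N` is not admissible or `|Q_1(N) - M_z'| ≤ ε M_z'` for all `z'` with `z ≤ z' ≤ X^δ`;
`M_z'` is the main term of Q1 with the singular series cut at `z'`.
(2) For every `G` the same holds for the pairs `(N, t)` with `κ Y ≤ N ≤ Y`.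
(3) The same with an additional fixed linear polynomial `F_0`.
(4) If `G` is linear and all `D_i` and `e_j` are `1`: for EVERY large `N`, all `b`, all `t` as in (1) but a proportion
`(log X)^(-A)`, `N` is not admissible or the product `𝔖(N)` converges and `Q_1(N)` is the main term of Q1 itself (with the complete
singular series) up to a factor `1 ± ε`.
-/

open Finset Polynomial Filter Pool.Agent.Lib.H59

namespace Pool.Agent.Results.MP_0bf1d2_nt.AlmostAllSystems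

/-- The constant term `b_i + ∑_j c_ij t_j`. -/
def shift {g d : ℕ} (c : Fin g → Fin d → ℤ) (b : Fin g → ℤ) (t : Fin d → ℤ) (i : Fin g) : ℤ :=
  b i + ∑ j, c i j * t j

/-- The system `P_i + b_i + ∑_j c_ij t_j`. -/
noncomputable def family {g d : ℕ} (P : Fin g → ℤ[X]) (c : Fin g → Fin d → ℤ) (b : Fin g → ℤ) (t : Fin d → ℤ) :
    Fin g → ℤ[X] :=
  fun i => P i + C (shift c b t i)

/-- The conditions on the fixed data: the polynomials `P_i`, the coefficients of the linear forms and the exponents `e_j`. -/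
structure Data {g d : ℕ} (P : Fin g → ℤ[X]) (c : Fin g → Fin d → ℤ) (e : Fin d → ℕ) : Prop where
  deg : ∀ i, 1 ≤ (P i).natDegree
  pos : ∀ i, 0 < (P i).leadingCoeff
  one : ∀ j, 1 ≤ e j
  own : ∀ i j, c i j ≠ 0 → e j = (P i).natDegree
  ne : ∀ i, c i ≠ 0
  ind : ∀ i i', i ≠ i' → (P i).natDegree = (P i').natDegree →
    (P i).leadingCoeff • c i' ≠ (P i').leadingCoeff • c i

/-- The main term `X/(log X)^(g+1) (h_0 h_1 ⋯ h_g)⁻¹ S` of Schinzel's formula (`S = 𝔖(N)` in Q1). -/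
noncomputable def mainTerm {g : ℕ} (F : Fin g → ℤ[X]) (G : ℤ[X]) (N : ℕ) (S : ℝ) : ℝ :=
  (argCount G N : ℝ) / Real.log (argCount G N) ^ (g + 1) *
    ((G.natDegree : ℝ) * ∏ i, ((F i).natDegree : ℝ))⁻¹ * S

/-- `N` is admissible for `F, G`, and `Q_1(N)` differs from the main term with the singular series `𝔖(N)` cut at `z` (the product
over the primes below `z`) by more than `ε` times this main term. -/
def Fails {g : ℕ} (ε : ℝ) (F : Fin g → ℤ[X]) (G : ℤ[X]) (N z : ℕ) : Prop :=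
  Admissible F G N ∧ ε * mainTerm F G N (seriesTrunc F G N z) <
    |(primeCount F G N : ℝ) - mainTerm F G N (seriesTrunc F G N z)|

/-- `N` is admissible for `F, G`, and it is not true that the product `𝔖(N)` converges and that `Q_1(N)` differs from the main term
by at most `ε` times the main term. -/
def FailsC {g : ℕ} (ε : ℝ) (F : Fin g → ℤ[X]) (G : ℤ[X]) (N : ℕ) : Prop :=
  Admissible F G N ∧ ¬ ∃ S : ℝ, Tendsto (fun z : ℕ => seriesTrunc F G N z) atTop (nhds S) ∧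
    |(primeCount F G N : ℝ) - mainTerm F G N S| ≤ ε * mainTerm F G N S

/-- The integral `t` with `|t_j| ≤ A X^(e_j)` and all constant terms `≥ 0`. -/
def region {g d : ℕ} (A X : ℕ) (c : Fin g → Fin d → ℤ) (e : Fin d → ℕ) (b : Fin g → ℤ) : Set (Fin d → ℤ) :=
  {t | (∀ j, |t j| ≤ A * (X : ℤ) ^ e j) ∧ ∀ i, 0 ≤ shift c b t i}

/-- `|b_i| ≤ A X^(deg P_i)`. -/
def Bounded {g : ℕ} (A X : ℕ) (P : Fin g → ℤ[X]) (b : Fin g → ℤ) : Prop :=
  ∀ i, |b i| ≤ A * (X : ℤ) ^ (P i).natDegree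

/-- The bound `X^(e_1 + ⋯ + e_d) ((log X)^(-A) + K z^(-c))` for the number of exceptional parameters. -/
noncomputable def bound {d : ℕ} (e : Fin d → ℕ) (A X z : ℕ) (K c : ℝ) : ℝ :=
  (X : ℝ) ^ (∑ j, e j) * ((Real.log X) ^ (-(A : ℝ)) + K * (z : ℝ) ^ (-c))

theorem Data.dat {g d : ℕ} {P : Fin g → ℤ[X]} {c : Fin g → Fin d → ℤ} {e : Fin d → ℕ} (h : Data P c e) :
    Pool.Agent.HUP.Dat c e (fun i => (P i).natDegree) (fun i => (P i).leadingCoeff) where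
  deg := h.deg
  lc := fun i => (h.pos i).ne'
  ne := fun i => by
    by_contra hcon
    push Not at hcon
    exact h.ne i (funext hcon)
  ind := fun i i' hi hD x x' h1 h2 => by
    have hx : x = 0 := by
      by_contra hx0
      have hx' : x' ≠ 0 := fun h3 => by
        rw [h3, zero_mul] at h1
        rcases mul_eq_zero.1 h1 with h4 | h4
        · exact hx0 h4
        · exact (h.pos i).ne' h4
      apply h.ind i i' hi hD
      funext j
      have h3 := h2 j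
      show (P i).leadingCoeff * c i' j = (P i').leadingCoeff * c i j
      have h4 : x' * ((P i).leadingCoeff * c i' j) = x' * ((P i').leadingCoeff * c i j) := by
        calc x' * ((P i).leadingCoeff * c i' j) = (P i).leadingCoeff * (x' * c i' j) := by ring
          _ = (P i).leadingCoeff * (x * c i j) := by rw [h3]
          _ = (x * (P i).leadingCoeff) * c i j := by ring
          _ = (x' * (P i').leadingCoeff) * c i j := by rw [h1]
          _ = x' * ((P i').leadingCoeff * c i j) := by ring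
      exact mul_left_cancel₀ hx' h4
    refine ⟨hx, ?_⟩
    rw [hx, zero_mul] at h1
    rcases mul_eq_zero.1 h1.symm with h4 | h4
    · exact h4
    · exact absurd h4 (h.pos i').ne'
  par := h.one
  blk := h.own

theorem region_sub {g d : ℕ} (A X : ℕ) (c : Fin g → Fin d → ℤ) (e : Fin d → ℕ) (b : Fin g → ℤ) (t : Fin d → ℤ)
    (ht : t ∈ region A X c e b) :
    t ∈ Pool.Agent.HUP.BoxT A X e ∧ ∀ i, 0 ≤ b i + Pool.Agent.HUP.lf c t i := by
  obtain ⟨h1, h2⟩ := ht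
  refine ⟨?_, h2⟩
  unfold Pool.Agent.HUP.BoxT
  rw [Fintype.mem_piFinset]
  intro j
  rw [mem_Icc]
  have := abs_le.1 (h1 j)
  push_cast
  exact this

theorem bound_eq {d : ℕ} (e : Fin d → ℕ) (A X z : ℕ) (K c : ℝ) :
    (X : ℝ) ^ (∑ j, (e j : ℝ)) * ((Real.log X) ^ (-(A : ℝ)) + K * (z : ℝ) ^ (-c)) = bound e A X z K c := by
  unfold bound
  congr 1
  rw [← Nat.cast_sum, Real.rpow_natCast]

theorem region_le {g d : ℕ} {A X : ℕ} {c : Fin g → Fin d → ℤ} {e : Fin d → ℕ} {b : Fin g → ℤ} {Q R : (Fin d → ℤ) → Prop}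
    {_ : DecidablePred R} {B : ℝ} (hQ : ∀ t, (∀ i, 0 ≤ b i + Pool.Agent.HUP.lf c t i) → Q t → R t)
    (hb : (((Pool.Agent.HUP.BoxT A X e).filter R).card : ℝ) ≤ B) :
    ({t | t ∈ region A X c e b ∧ Q t}.ncard : ℝ) ≤ B := by
  refine le_trans (Nat.cast_le.2 ?_) hb
  rw [← Set.ncard_coe_finset]
  refine Set.ncard_le_ncard ?_ (Finset.finite_toSet _)
  rintro t ⟨h1, h2⟩
  obtain ⟨h3, h4⟩ := region_sub A X c e b t h1
  exact mem_coe.2 (mem_filter.2 ⟨h3, hQ t h4 h2⟩)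

theorem pairs_le {g d : ℕ} {A X Y : ℕ} {κ : ℝ} {c : Fin g → Fin d → ℤ} {e : Fin d → ℕ} {b : Fin g → ℤ}
    {Q R : ℕ × (Fin d → ℤ) → Prop} {_ : DecidablePred R} {B : ℝ} (hY : 0 < κ * Y)
    (hQ : ∀ x : ℕ × (Fin d → ℤ), κ * Y ≤ x.1 → (∀ i, 0 ≤ b i + Pool.Agent.HUP.lf c x.2 i) → Q x → R x)
    (hb : (((Icc 1 Y ×ˢ Pool.Agent.HUP.BoxT A X e).filter R).card : ℝ) ≤ B) :
    ({x : ℕ × (Fin d → ℤ) | (κ * Y ≤ x.1 ∧ x.1 ≤ Y) ∧ x.2 ∈ region A X c e b ∧ Q x}.ncard : ℝ) ≤ B := by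
  refine le_trans (Nat.cast_le.2 ?_) hb
  rw [← Set.ncard_coe_finset]
  refine Set.ncard_le_ncard ?_ (Finset.finite_toSet _)
  rintro x ⟨h0, h1, h2⟩
  obtain ⟨h3, h4⟩ := region_sub A X c e b x.2 h1
  have h5 : 1 ≤ x.1 := by
    have h6 : (0 : ℝ) < x.1 := lt_of_lt_of_le hY h0.1
    exact_mod_cast h6
  exact mem_coe.2 (mem_filter.2 ⟨mem_product.2 ⟨mem_Icc.2 ⟨h5, h0.2⟩, h3⟩, hQ x h0.1 h4 h2⟩)

/-- Clause (4). -/
theorem part4 {g d : ℕ} (G : ℤ[X]) (hG : G.natDegree = 1) (hG0 : 0 < G.leadingCoeff)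
    (P : Fin g → ℤ[X]) (c : Fin g → Fin d → ℤ) (hP : Data P c (fun _ => 1)) (hd : 1 ≤ d)
    (hP1 : ∀ i, (P i).natDegree = 1) (A : ℕ) (ε : ℝ) (hε : 0 < ε) :
    ∃ N₀ : ℕ, ∀ N : ℕ, N₀ ≤ N → ∀ b : Fin g → ℤ, Bounded A (argCount G N) P b →
      ({t | t ∈ region A (argCount G N) c (fun _ => 1) b ∧ FailsC ε (family P c b t) G N}.ncard : ℝ) ≤
        (argCount G N : ℝ) ^ d * (Real.log (argCount G N)) ^ (-(A : ℝ)) := by
  classical
  obtain ⟨N₀, h2⟩ := Pool.Agent.HLA.W22_main hd G hG hG0 P hP1 hP.pos c hP.ne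
    (fun i j hij => hP.ind i j hij (by rw [hP1 i, hP1 j])) A ε hε
  refine ⟨N₀, fun N hN b hb => ?_⟩
  have h2' := h2 N hN b (fun i => by
    have := hb i
    rwa [hP1 i, pow_one] at this)
  rw [Real.rpow_natCast] at h2'
  refine region_le (R := _) (hb := h2') fun t h6 h7 => ⟨h6, h7.1, fun h8 => h7.2 ?_⟩
  obtain ⟨S, hS, hS'⟩ := h8
  refine ⟨S, hS, ?_⟩
  have hmt : mainTerm (family P c b t) G N S = argCount G N / Real.log (argCount G N) ^ (g + 1) * S := by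
    unfold mainTerm
    have h9 : ∀ i, (family P c b t i).natDegree = 1 := by
      intro i
      unfold family
      rw [natDegree_add_C]
      exact hP1 i
    rw [hG, Finset.prod_congr rfl fun i _ => by rw [h9 i]]
    simp
  rw [hmt]
  exact hS'

/-- **The main theorem.** -/
theorem result {g d : ℕ} (G : ℤ[X]) (hG : 1 ≤ G.natDegree) (hG0 : 0 < G.leadingCoeff)
    (P : Fin g → ℤ[X]) (c : Fin g → Fin d → ℤ) (e : Fin d → ℕ) (hP : Data P c e) :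
    (G.natDegree = 1 → ∃ δ : ℝ, 0 < δ ∧ ∀ A : ℕ, ∃ c₀ : ℝ, 0 < c₀ ∧ ∀ ε : ℝ, 0 < ε → ∃ (K : ℝ) (N₀ : ℕ),
      ∀ N : ℕ, N₀ ≤ N → ∀ b : Fin g → ℤ, Bounded A (argCount G N) P b →
      ∀ z : ℕ, 1 ≤ z → (z : ℝ) ≤ (argCount G N : ℝ) ^ δ →
        ({t | t ∈ region A (argCount G N) c e b ∧ ∃ z' : ℕ, z ≤ z' ∧ (z' : ℝ) ≤ (argCount G N : ℝ) ^ δ ∧
          Fails ε (family P c b t) G N z'}.ncard : ℝ) ≤ bound e A (argCount G N) z K c₀) ∧
    (∃ δ : ℝ, 0 < δ ∧ ∀ A : ℕ, ∃ c₀ : ℝ, 0 < c₀ ∧ ∀ ε κ : ℝ, 0 < ε → 0 < κ → ∃ (K : ℝ) (Y₀ : ℕ),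
      ∀ Y : ℕ, Y₀ ≤ Y → ∀ b : Fin g → ℤ, Bounded A (argCount G Y) P b →
      ∀ z : ℕ, 1 ≤ z → (z : ℝ) ≤ (argCount G Y : ℝ) ^ δ →
        ({x : ℕ × (Fin d → ℤ) | (κ * Y ≤ x.1 ∧ x.1 ≤ Y) ∧ x.2 ∈ region A (argCount G Y) c e b ∧
          ∃ z' : ℕ, z ≤ z' ∧ (z' : ℝ) ≤ (argCount G Y : ℝ) ^ δ ∧ Fails ε (family P c b x.2) G x.1 z'}.ncard : ℝ) ≤
            Y * bound e A (argCount G Y) z K c₀) ∧
    (∀ F₀ : ℤ[X], F₀.natDegree = 1 → 0 < F₀.leadingCoeff →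
      ∃ δ : ℝ, 0 < δ ∧ ∀ A : ℕ, ∃ c₀ : ℝ, 0 < c₀ ∧ ∀ ε κ : ℝ, 0 < ε → 0 < κ → ∃ (K : ℝ) (Y₀ : ℕ),
      ∀ Y : ℕ, Y₀ ≤ Y → ∀ b : Fin g → ℤ, Bounded A (argCount G Y) P b →
      ∀ z : ℕ, 1 ≤ z → (z : ℝ) ≤ (argCount G Y : ℝ) ^ δ →
        ({x : ℕ × (Fin d → ℤ) | (κ * Y ≤ x.1 ∧ x.1 ≤ Y) ∧ x.2 ∈ region A (argCount G Y) c e b ∧
          ∃ z' : ℕ, z ≤ z' ∧ (z' : ℝ) ≤ (argCount G Y : ℝ) ^ δ ∧
            Fails ε (Fin.cons F₀ (family P c b x.2) : Fin (g + 1) → ℤ[X]) G x.1 z'}.ncard : ℝ) ≤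
              Y * bound e A (argCount G Y) z K c₀) ∧
    (G.natDegree = 1 → 1 ≤ d → (∀ i, (P i).natDegree = 1) → (∀ j, e j = 1) → ∀ (A : ℕ) (ε : ℝ), 0 < ε →
      ∃ N₀ : ℕ, ∀ N : ℕ, N₀ ≤ N → ∀ b : Fin g → ℤ, Bounded A (argCount G N) P b →
        ({t | t ∈ region A (argCount G N) c e b ∧ FailsC ε (family P c b t) G N}.ncard : ℝ) ≤
          (argCount G N : ℝ) ^ d * (Real.log (argCount G N)) ^ (-(A : ℝ))) := by
  classical
  refine ⟨fun hG1 => ?_, ?_, fun F₀ hF hF0 => ?_, fun hG1 hd hP1 he A ε hε => ?_⟩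
  · obtain ⟨δ, hδ, h⟩ := Pool.Agent.HLA.W21_17 Pool.Agent.HLA.W20_A G hG1 hG0 P hP.pos c e hP.dat
    refine ⟨δ, hδ, fun A => ?_⟩
    obtain ⟨c₀, hc₀, h'⟩ := h A
    refine ⟨c₀, hc₀, fun ε hε => ?_⟩
    obtain ⟨K, N₀, h''⟩ := h' ε hε
    refine ⟨K, N₀, fun N hN b hb z hz hz' => ?_⟩
    rw [← bound_eq]
    exact region_le (R := _) (hb := h'' N hN b hb z hz hz') fun t h1 h2 => ⟨h1, h2⟩
  · obtain ⟨δ, hδ, h⟩ := Pool.Agent.HLA.W21_19 Pool.Agent.HLA.W20_N G hG hG0 P hP.pos c e hP.dat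
    refine ⟨δ, hδ, fun A => ?_⟩
    obtain ⟨c₀, hc₀, h'⟩ := h A
    refine ⟨c₀, hc₀, fun ε κ hε hκ => ?_⟩
    obtain ⟨K, Y₀, h''⟩ := h' ε κ hε hκ
    refine ⟨K, max Y₀ 1, fun Y hY b hb z hz hz' => ?_⟩
    have hY1 : (1 : ℝ) ≤ Y := by exact_mod_cast (le_max_right _ _).trans hY
    rw [← bound_eq, ← mul_assoc]
    exact pairs_le (R := _) (hY := by positivity) (hb := h'' Y ((le_max_left _ _).trans hY) b hb z hz hz')
      fun x h0 h1 h2 => ⟨h0, h1, h2⟩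
  · obtain ⟨δ, hδ, h⟩ := Pool.Agent.HLA.W21_18 Pool.Agent.HLA.W20_A G hG hG0 P hP.pos c e hP.dat F₀ hF hF0
    refine ⟨δ, hδ, fun A => ?_⟩
    obtain ⟨c₀, hc₀, h'⟩ := h A
    refine ⟨c₀, hc₀, fun ε κ hε hκ => ?_⟩
    obtain ⟨K, Y₀, h''⟩ := h' ε κ hε hκ
    refine ⟨K, max Y₀ 1, fun Y hY b hb z hz hz' => ?_⟩
    have hY1 : (1 : ℝ) ≤ Y := by exact_mod_cast (le_max_right _ _).trans hY
    rw [← bound_eq, ← mul_assoc]
    exact pairs_le (R := _) (hY := by positivity) (hb := h'' Y ((le_max_left _ _).trans hY) b hb z hz hz')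
      fun x h0 h1 h2 => ⟨h0, h1, h2⟩
  · have he' : e = fun _ => 1 := funext he
    subst he'
    exact part4 G hG1 hG0 P c hP hd hP1 A ε hε

end Pool.Agent.Results.MP_0bf1d2_nt.AlmostAllSystems
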