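import Pool.Agent.Lib.H59M.M1.M110
import Pool.Agent.Lib.H59M.M1.M113

/-!
# Schinzel's asymptotic formula for linear families of systems of polynomials: power-saving exceptional sets

`G` is a fixed linear polynomial, `P_1, …, P_g` are fixed polynomials of any degrees `D_i ≥ 1`, `F_i = P_i + b_i + ψ_i(t)`, the `ψ_i`
are fixed integral linear forms in `t = (t_1, …, t_d)`, the `b_i` are arbitrary with `|b_i| ≤ A X^(D_i)`, and `t` varies in the
box `|t_j| ≤ A X^(e_j)`. Every parameter `t_j` occurs only in polynomials of degree `e_j`; the `ψ_i` are not `0`, and for two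
polynomials of the same degree the vectors (leading coefficient, form) are not proportional. One parameter is allowed.

There are arbitrarily large `M` such that for EVERY `N` in `[M, M^A]` and all `b`, for all `t` in the box with
`b_i + ψ_i(t) ≥ 0` but at most `X^(e_1 + … + e_d - η)`, `N` is not admissible or `Q_1(N)` is the main term of Q1 up to
a factor `1 ± ε`:
(1) with the singular series cut at `z`, for all `z` in `[X^δ, X^(δ₁)]` at once (any degrees);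
(2) with the complete singular series, if all `D_i` and `e_j` are `1`.
-/

open Finset Polynomial Filter Pool.Agent.Lib.H59

namespace Pool.Agent.Results.MP_0bf1d2_nt.AsymptoticSystems

/-- The constant term `b_i + ∑_j c_ij t_j`. -/
def shift {g d : ℕ} (c : Fin g → Fin d → ℤ) (b : Fin g → ℤ) (t : Fin d → ℤ) (i : Fin g) : ℤ :=
  b i + ∑ j, c i j * t j

/-- The system `P_i + b_i + ∑_j c_ij t_j`. -/
noncomputable def family {g d : ℕ} (P : Fin g → ℤ[X]) (c : Fin g → Fin d → ℤ) (b : Fin g → ℤ) (t : Fin d → ℤ) :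
    Fin g → ℤ[X] :=
  fun i => P i + C (shift c b t i)

/-- The conditions on the fixed data: the polynomials `P_i`, the coefficients of the linear forms and the exponents `e_j`. -/
structure Data {g d : ℕ} (P : Fin g → ℤ[X]) (c : Fin g → Fin d → ℤ) (e : Fin d → ℕ) : Prop where
  deg : ∀ i, 1 ≤ (P i).natDegree
  pos : ∀ i, 0 < (P i).leadingCoeff
  one : ∀ j, 1 ≤ e j
  own : ∀ i j, c i j ≠ 0 → e j = (P i).natDegree
  ne : ∀ i, c i ≠ 0
  ind : ∀ i i', i ≠ i' → (P i).natDegree = (P i').natDegree →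
    (P i).leadingCoeff • c i' ≠ (P i').leadingCoeff • c i

/-- The integral `t` with `|t_j| ≤ A X^(e_j)` and all constant terms `≥ 0`. -/
def region {g d : ℕ} (A X : ℕ) (c : Fin g → Fin d → ℤ) (e : Fin d → ℕ) (b : Fin g → ℤ) : Set (Fin d → ℤ) :=
  {t | (∀ j, |t j| ≤ A * (X : ℤ) ^ e j) ∧ ∀ i, 0 ≤ shift c b t i}

/-- `|b_i| ≤ A X^(deg P_i)`. -/
def Bounded {g : ℕ} (A X : ℕ) (P : Fin g → ℤ[X]) (b : Fin g → ℤ) : Prop :=
  ∀ i, |b i| ≤ A * (X : ℤ) ^ (P i).natDegree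

/-- The main term `X/(log X)^(g+1) (h_0 h_1 ⋯ h_g)⁻¹ S` of Schinzel's formula (`S = 𝔖(N)` in Q1). -/
noncomputable def mainTerm {g : ℕ} (F : Fin g → ℤ[X]) (G : ℤ[X]) (N : ℕ) (S : ℝ) : ℝ :=
  (argCount G N : ℝ) / Real.log (argCount G N) ^ (g + 1) *
    ((G.natDegree : ℝ) * ∏ i, ((F i).natDegree : ℝ))⁻¹ * S

/-- `N` is admissible for `F, G`, and `Q_1(N)` differs from the main term with the singular series `𝔖(N)` cut at `z` (the product
over the primes below `z`) by more than `ε` times this main term. -/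
def Fails {g : ℕ} (ε : ℝ) (F : Fin g → ℤ[X]) (G : ℤ[X]) (N z : ℕ) : Prop :=
  Admissible F G N ∧ ε * mainTerm F G N (seriesTrunc F G N z) <
    |(primeCount F G N : ℝ) - mainTerm F G N (seriesTrunc F G N z)|

/-- `N` is admissible for `F, G`, and it is not true that the product `𝔖(N)` converges and that `Q_1(N)` differs from the main term
by at most `ε` times the main term. -/
def FailsC {g : ℕ} (ε : ℝ) (F : Fin g → ℤ[X]) (G : ℤ[X]) (N : ℕ) : Prop :=
  Admissible F G N ∧ ¬ ∃ S : ℝ, Tendsto (fun z : ℕ => seriesTrunc F G N z) atTop (nhds S) ∧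
    |(primeCount F G N : ℝ) - mainTerm F G N S| ≤ ε * mainTerm F G N S

theorem Data.dat {g d : ℕ} {P : Fin g → ℤ[X]} {c : Fin g → Fin d → ℤ} {e : Fin d → ℕ} (h : Data P c e) :
    Pool.Agent.HUP.Dat c e (fun i => (P i).natDegree) (fun i => (P i).leadingCoeff) where
  deg := h.deg
  lc := fun i => (h.pos i).ne'
  ne := fun i => by
    by_contra hcon
    push Not at hcon
    exact h.ne i (funext hcon)
  ind := fun i i' hi hD x x' h1 h2 => by
    have hx : x = 0 := by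
      by_contra hx0
      have hx' : x' ≠ 0 := fun h3 => by
        rw [h3, zero_mul] at h1
        rcases mul_eq_zero.1 h1 with h4 | h4
        · exact hx0 h4
        · exact (h.pos i).ne' h4
      apply h.ind i i' hi hD
      funext j
      have h3 := h2 j
      show (P i).leadingCoeff * c i' j = (P i').leadingCoeff * c i j
      have h4 : x' * ((P i).leadingCoeff * c i' j) = x' * ((P i').leadingCoeff * c i j) := by
        calc x' * ((P i).leadingCoeff * c i' j) = (P i).leadingCoeff * (x' * c i' j) := by ring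
          _ = (P i).leadingCoeff * (x * c i j) := by rw [h3]
          _ = (x * (P i).leadingCoeff) * c i j := by ring
          _ = (x' * (P i').leadingCoeff) * c i j := by rw [h1]
          _ = x' * ((P i').leadingCoeff * c i j) := by ring
      exact mul_left_cancel₀ hx' h4
    refine ⟨hx, ?_⟩
    rw [hx, zero_mul] at h1
    rcases mul_eq_zero.1 h1.symm with h4 | h4
    · exact h4
    · exact absurd h4 (h.pos i').ne'
  par := h.one
  blk := h.own

/-- the box -/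
theorem region_box {g d : ℕ} {A X : ℕ} {c : Fin g → Fin d → ℤ} {e : Fin d → ℕ} {b : Fin g → ℤ} {t : Fin d → ℤ}
    (ht : t ∈ region A X c e b) : t ∈ Pool.Agent.HUP.BoxT A X e ∧ ∀ i, 0 ≤ b i + Pool.Agent.HUP.lf c t i := by
  obtain ⟨h1, h2⟩ := ht
  refine ⟨?_, h2⟩
  unfold Pool.Agent.HUP.BoxT
  rw [Fintype.mem_piFinset]
  intro j
  rw [mem_Icc]
  have := abs_le.1 (h1 j)
  push_cast
  exact this

/-- Clause (1): the exceptional set serves all `z` in `[X^δ, X^(δ₁)]` at once. -/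
theorem part1 {g d : ℕ} (G : ℤ[X]) (hG : G.natDegree = 1) (hG0 : 0 < G.leadingCoeff)
    (P : Fin g → ℤ[X]) (c : Fin g → Fin d → ℤ) (e : Fin d → ℕ) (hP : Data P c e) :
    ∃ δ₁ : ℝ, 0 < δ₁ ∧ ∀ (A : ℕ) (ε δ : ℝ), 0 < ε → 0 < δ → ∃ η : ℝ, 0 < η ∧ ∀ M₀ : ℕ, ∃ M : ℕ, M₀ ≤ M ∧
      ∀ N : ℕ, M ≤ N → N ≤ M ^ A → ∀ b : Fin g → ℤ, Bounded A (argCount G N) P b →
        ({t | t ∈ region A (argCount G N) c e b ∧ ∃ z : ℕ, (argCount G N : ℝ) ^ δ ≤ z ∧ (z : ℝ) ≤ (argCount G N : ℝ) ^ δ₁ ∧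
          Fails ε (family P c b t) G N z}.ncard : ℝ) ≤
          (argCount G N : ℝ) ^ ((∑ j, (e j : ℝ)) - η) := by
  classical
  obtain ⟨δ₁, hδ₁, h⟩ := Pool.Agent.H9P.W3_unif G hG hG0 P (fun i => (P i).natDegree) (fun i => (P i).leadingCoeff)
    (fun i => ⟨rfl, rfl⟩) c e hP.own (Pool.Agent.H9P.acore_all c e P hP.dat hP.pos)
  refine ⟨δ₁, hδ₁, fun A ε δ hε hδ => ?_⟩
  obtain ⟨η, hη, h1⟩ := h A ε δ hε hδ
  refine ⟨η, hη, fun M₀ => ?_⟩
  obtain ⟨M, hM, h2⟩ := h1 M₀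
  refine ⟨M, hM, fun N hN hN' b hb => ?_⟩
  refine le_trans (Nat.cast_le.2 ?_) (h2 N hN hN' b hb)
  rw [← Set.ncard_coe_finset]
  refine Set.ncard_le_ncard ?_ (Finset.finite_toSet _)
  rintro t ⟨h3, h5⟩
  obtain ⟨h6, h7⟩ := region_box h3
  exact mem_coe.2 (mem_filter.2 ⟨h6, h7, h5⟩)

/-- Clause (2). -/
theorem part2 {g d : ℕ} (G : ℤ[X]) (hG : G.natDegree = 1) (hG0 : 0 < G.leadingCoeff)
    (P : Fin g → ℤ[X]) (c : Fin g → Fin d → ℤ) (hP : Data P c (fun _ => 1)) (hd : 1 ≤ d)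
    (hP1 : ∀ i, (P i).natDegree = 1) (A : ℕ) (ε : ℝ) (hε : 0 < ε) :
    ∃ η : ℝ, 0 < η ∧ ∀ M₀ : ℕ, ∃ M : ℕ, M₀ ≤ M ∧
      ∀ N : ℕ, M ≤ N → N ≤ M ^ A → ∀ b : Fin g → ℤ, Bounded A (argCount G N) P b →
        ({t | t ∈ region A (argCount G N) c (fun _ => 1) b ∧ FailsC ε (family P c b t) G N}.ncard : ℝ) ≤
          (argCount G N : ℝ) ^ ((d : ℝ) - η) := by
  classical
  obtain ⟨η, hη, h⟩ := Pool.Agent.H9P.W2_main hd G hG hG0 P hP1 hP.pos c hP.ne
    (fun i j hij => hP.ind i j hij (by rw [hP1 i, hP1 j]))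
    (Pool.Agent.H9P.acore_lin hd _ hP.pos c hP.ne (fun i j hij => hP.ind i j hij (by rw [hP1 i, hP1 j]))) A ε hε
  refine ⟨η, hη, fun M₀ => ?_⟩
  obtain ⟨M, hM, h2⟩ := h M₀
  refine ⟨M, hM, fun N hN hN' b hb => ?_⟩
  refine le_trans (Nat.cast_le.2 ?_) (h2 N hN hN' b (fun i => by
    have := hb i
    rwa [hP1 i, pow_one] at this))
  rw [← Set.ncard_coe_finset]
  refine Set.ncard_le_ncard ?_ (Finset.finite_toSet _)
  rintro t ⟨h3, h4, h5⟩
  obtain ⟨h6, h7⟩ := region_box h3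
  refine mem_coe.2 (mem_filter.2 ⟨h6, h7, h4, fun h8 => h5 ?_⟩)
  obtain ⟨S, hS, hS'⟩ := h8
  refine ⟨S, hS, ?_⟩
  have hmt : mainTerm (family P c b t) G N S = argCount G N / Real.log (argCount G N) ^ (g + 1) * S := by
    unfold mainTerm
    have h9 : ∀ i, (family P c b t i).natDegree = 1 := by
      intro i
      unfold family
      rw [natDegree_add_C]
      exact hP1 i
    rw [hG, Finset.prod_congr rfl fun i _ => by rw [h9 i]]
    simp
  rw [hmt]
  exact hS'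

/-- **The main theorem.** -/
theorem result {g d : ℕ} (G : ℤ[X]) (hG : G.natDegree = 1) (hG0 : 0 < G.leadingCoeff)
    (P : Fin g → ℤ[X]) (c : Fin g → Fin d → ℤ) (e : Fin d → ℕ) (hP : Data P c e) :
    (∃ δ₁ : ℝ, 0 < δ₁ ∧ ∀ (A : ℕ) (ε δ : ℝ), 0 < ε → 0 < δ → ∃ η : ℝ, 0 < η ∧ ∀ M₀ : ℕ, ∃ M : ℕ, M₀ ≤ M ∧
      ∀ N : ℕ, M ≤ N → N ≤ M ^ A → ∀ b : Fin g → ℤ, Bounded A (argCount G N) P b →
        ({t | t ∈ region A (argCount G N) c e b ∧ ∃ z : ℕ, (argCount G N : ℝ) ^ δ ≤ z ∧ (z : ℝ) ≤ (argCount G N : ℝ) ^ δ₁ ∧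
          Fails ε (family P c b t) G N z}.ncard : ℝ) ≤
          (argCount G N : ℝ) ^ ((∑ j, (e j : ℝ)) - η)) ∧
    (1 ≤ d → (∀ i, (P i).natDegree = 1) → (∀ j, e j = 1) → ∀ (A : ℕ) (ε : ℝ), 0 < ε →
      ∃ η : ℝ, 0 < η ∧ ∀ M₀ : ℕ, ∃ M : ℕ, M₀ ≤ M ∧
      ∀ N : ℕ, M ≤ N → N ≤ M ^ A → ∀ b : Fin g → ℤ, Bounded A (argCount G N) P b →
        ({t | t ∈ region A (argCount G N) c e b ∧ FailsC ε (family P c b t) G N}.ncard : ℝ) ≤
          (argCount G N : ℝ) ^ ((d : ℝ) - η)) := by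
  refine ⟨part1 G hG hG0 P c e hP, fun hd hP1 he A ε hε => ?_⟩
  have he' : e = fun _ => 1 := funext he
  subst he'
  exact part2 G hG hG0 P c hP hd hP1 A ε hε

end Pool.Agent.Results.MP_0bf1d2_nt.AsymptoticSystems
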